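import Pool.Agent.Helper61.FN.GoalsD

/-!
# Project FN (MP_06d934_gt): packet FN-FA, type A3 at the level of matrices
-/

set_option autoImplicit false

namespace Pool.Agent.Helper32.FN

open Pool.Agent.Helper61.FN Pool.Agent.Helper83.EIN

/-- the six coordinates -/
def co (x : Fin 4 → Fin 4 → ℝ) (e : Fin 6) : ℝ := x (en e).1 (en e).2

lemma co_inj {x y : Fin 4 → Fin 4 → ℝ} (hx : IsMetric x) (hy : IsMetric y) (h : co x = co y) :
    x = y := by
  have h0 : x 0 1 = y 0 1 := congrFun h 0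
  have h1 : x 0 2 = y 0 2 := congrFun h 1
  have h2 : x 0 3 = y 0 3 := congrFun h 2
  have h3 : x 1 2 = y 1 2 := congrFun h 3
  have h4 : x 1 3 = y 1 3 := congrFun h 4
  have h5 : x 2 3 = y 2 3 := congrFun h 5
  funext i j
  fin_cases i <;> fin_cases j
  · exact (hx.diag 0).trans (hy.diag 0).symm
  · exact h0
  · exact h1
  · exact h2
  · exact ((hx.symm 1 0).trans h0).trans (hy.symm 0 1)
  · exact (hx.diag 1).trans (hy.diag 1).symm
  · exact h3
  · exact h4
  · exact ((hx.symm 2 0).trans h1).trans (hy.symm 0 2)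
  · exact ((hx.symm 2 1).trans h3).trans (hy.symm 1 2)
  · exact (hx.diag 2).trans (hy.diag 2).symm
  · exact h5
  · exact ((hx.symm 3 0).trans h2).trans (hy.symm 0 3)
  · exact ((hx.symm 3 1).trans h4).trans (hy.symm 1 3)
  · exact ((hx.symm 3 2).trans h5).trans (hy.symm 2 3)
  · exact (hx.diag 3).trans (hy.diag 3).symm

theorem goalFA (hUA : G_UA) (hLKA : G_LKA) (hSCA : G_SCA) : G_FA := by
  obtain ⟨C, hC⟩ := hUA
  refine ⟨C, fun n hn => ?_⟩
  obtain ⟨S, hS⟩ : ∃ S : Set (Fin 4 → Fin 4 → ℝ), S = {x | IsMetric x ∧ IsEinstein n (1 / 2) x} :=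
    ⟨_, rfl⟩
  have hinj : Set.InjOn co S := by
    intro x hx y hy hxy
    rw [hS] at hx hy
    exact co_inj hx.1 hy.1 hxy
  have hsub : co '' S ⊆ Sols mA (cA fun i ↦ (n i : ℝ)) (dA fun i ↦ (n i : ℝ)) (∑ i, (n i : ℝ)) := by
    rintro _ ⟨x, hx, rfl⟩
    rw [hS] at hx
    exact hLKA n hn x hx.1 hx.2
  have hcard : S.encard ≤ C := by
    rw [← hinj.encard_image]
    exact (Set.encard_le_encard hsub).trans (hC n hn)
  have hfin : S.Finite := Set.finite_of_encard_le_coe hcard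
  refine ⟨hfin.toFinset, ?_, ?_, ?_⟩
  · rw [hfin.encard_eq_coe_toFinset_card] at hcard
    exact_mod_cast hcard
  · intro y hy
    rw [Set.Finite.mem_toFinset, hS] at hy
    exact ⟨hy.1, (Pool.Agent.Helper58.EF.Mat.einstein_iff hn hy.1 _).2 hy.2⟩
  · intro x c hx hE
    have hE' := (Pool.Agent.Helper58.EF.Mat.einstein_iff hn hx c).1 hE
    obtain ⟨hc, hm, he⟩ := hSCA n hn x c hx hE'
    refine ⟨hc, (2 * c) • x, ?_, (2 * c)⁻¹, by positivity, ?_⟩
    · rw [Set.Finite.mem_toFinset, hS]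
      exact ⟨hm, he⟩
    · rw [inv_smul_smul₀ (by positivity)]

end Pool.Agent.Helper32.FN
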