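import Pool.Agent.Helper61.FN.GoalsD
import Pool.Agent.Helper83.EIN.Link

/-!
# Project FN (MP_06d934_gt): packet FN-SCA, the Einstein constant of type A3
-/

set_option autoImplicit false

namespace Pool.Agent.Helper32.FN

open Pool.Agent.Helper61.FN Pool.Agent.Helper83.EIN

theorem goalSCA : G_SCA := by
  intro n hn x c hx hE
  have hc := const_pos n hn hx (i₀ := 0) (j₀ := 1) (by decide) hE
  exact ⟨hc, hx.smul (r := 2 * c) (by linarith), scale_half n hx hc hE⟩

end Pool.Agent.Helper32.FN
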